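import Pool.Agent.Helper460_CSP.Bls
import Pool.Agent.Helper460_CSP.Jo3
import Pool.Agent.Helper460_CSP.Sur

set_option autoImplicit false
set_option linter.unusedSectionVars false

/-! Automorphisms preserving all homomorphisms to finite Heisenberg groups. -/

namespace Pool.Agent.U181.CF

open Pool.Agent.Helper460_OutF Pool.Agent.Helper460_CSP
open FreeGroup (of)
open scoped commutatorElement Matrix

section gen

variable {n : ℕ}

theorem N2_le {M L : ℕ} (hM : 0 < M) (hML : M ∣ L) : N2 (Fin n) (L : ℤ) ≤ N1 (Fin n) M := by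
  apply Subgroup.normalClosure_le_normal
  rintro _ ⟨i, j, hij, rfl⟩
  obtain ⟨t, rfl⟩ := hML
  show Ea i j ((M * t : ℕ) : ℤ) ∈ N1 (Fin n) M
  unfold Ea
  rw [zpow_natCast, pow_mul]
  exact pow_mem ((N1_step hM).rrp i j hij) t

/-- automorphisms preserving all homomorphisms to `H` -/
def Tr (H : Type) [Group H] : Subgroup (MulAut (FreeGroup (Fin n))) where
  carrier := {ψ | ∀ (f : FreeGroup (Fin n) →* H) (x : FreeGroup (Fin n)), f (ψ x) = f x}
  mul_mem' := by
    intro a b ha hb f x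
    show f (a (b x)) = f x
    rw [ha, hb]
  one_mem' := fun _ _ => rfl
  inv_mem' := by
    intro a ha f x
    have := ha f (a⁻¹ x)
    rw [← MulAut.mul_apply, mul_inv_cancel, MulAut.one_apply] at this
    exact this.symm

instance Tr_normal (H : Type) [Group H] : (Tr (n := n) H).Normal := by
  refine ⟨fun a ha g f x => ?_⟩
  show f (g (a (g⁻¹ x))) = f x
  have h1 := ha (f.comp (g : FreeGroup (Fin n) →* FreeGroup (Fin n))) (g⁻¹ x)
  have h2 : f (g (a (g⁻¹ x))) = f (g (g⁻¹ x)) := h1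
  rw [h2, ← MulAut.mul_apply, mul_inv_cancel, MulAut.one_apply]

theorem Ea_Tr {H : Type} [Group H] {L : ℕ} (h : ∀ y : H, y ^ L = 1) {i j : Fin n} (hij : i ≠ j) :
    Ea i j (L : ℤ) ∈ Tr (n := n) H := by
  intro f x
  have : f.comp ((Ea i j (L : ℤ) : MulAut (FreeGroup (Fin n))) :
      FreeGroup (Fin n) →* FreeGroup (Fin n)) = f := by
    ext k
    show f (Ea i j (L : ℤ) (of k)) = f (of k)
    rw [Ea_eq]
    by_cases hk : k = i
    · subst hk
      rw [rr_self, map_zpow, kil_ne (Ne.symm hij), map_mul, map_zpow, zpow_natCast, h, mul_one]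
    · rw [rr_ne hk]
  exact DFunLike.congr_fun this x

theorem N2_Tr {H : Type} [Group H] {L : ℕ} (h : ∀ y : H, y ^ L = 1) :
    N2 (Fin n) (L : ℤ) ≤ Tr (n := n) H := by
  apply Subgroup.normalClosure_le_normal
  rintro _ ⟨i, j, hij, rfl⟩
  exact Ea_Tr h hij

theorem cong_mat {L : ℕ} {ψ : MulAut (FreeGroup (Fin n))} (h : ψ ∈ Tr (n := n) (Hs (ZMod L)))
    (k j : Fin n) : (L : ℤ) ∣ mA ψ k j - (1 : Matrix (Fin n) (Fin n) ℤ) k j := by
  have h1 := congrArg Hs.a (h (ph (ZMod L) k k) (of j))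
  rw [ph_a, ph_a] at h1
  rw [← ZMod.intCast_zmod_eq_zero_iff_dvd, Int.cast_sub, sub_eq_zero]
  have h2 : (1 : Matrix (Fin n) (Fin n) ℤ) k j = xv (of j) k := by
    rw [xv_of, Matrix.one_apply, Pi.single_apply]
  rw [h2]
  exact h1

theorem det_one {L : ℕ} (hL : 2 < L) {ψ : MulAut (FreeGroup (Fin n))}
    (h : ψ ∈ Tr (n := n) (Hs (ZMod L))) : (mA ψ).det = 1 := by
  have h1 : (mA ψ).det * (mA ψ⁻¹).det = 1 := by
    rw [← Matrix.det_mul, ← mA_mul, mul_inv_cancel, mA_one, Matrix.det_one]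
  have h2 : IsUnit (mA ψ).det := IsUnit.of_mul_eq_one _ h1
  have h3 : (((mA ψ).det : ℤ) : ZMod L) = 1 := by
    have h4 : (mA ψ).map (Int.castRingHom (ZMod L)) = 1 := by
      ext k j
      have h5 := cong_mat h k j
      rw [← ZMod.intCast_zmod_eq_zero_iff_dvd, Int.cast_sub, sub_eq_zero] at h5
      rw [Matrix.map_apply]
      show ((mA ψ k j : ℤ) : ZMod L) = _
      rw [h5, Matrix.one_apply, Matrix.one_apply]
      split_ifs <;> simp
    have h6 : Int.castRingHom (ZMod L) (mA ψ).det =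
        ((mA ψ).map (Int.castRingHom (ZMod L))).det := by
      rw [RingHom.map_det]
      rfl
    rw [h4, Matrix.det_one] at h6
    exact h6
  rcases Int.isUnit_iff.1 h2 with h4 | h4
  · exact h4
  · exfalso
    rw [h4] at h3
    have h5 : (((-1 - 1 : ℤ)) : ZMod L) = 0 := by
      rw [Int.cast_sub, h3, Int.cast_one, sub_self]
    rw [ZMod.intCast_zmod_eq_zero_iff_dvd] at h5
    have := Int.le_of_dvd (by norm_num) ((dvd_neg (a := (L : ℤ))).2 h5)
    omega

theorem asm (h3 : 3 ≤ n) {M L : ℕ} (hM : 0 < M) (hL : 2 < L) (hML : M ∣ L)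
    (hc : ∀ y : Hs (ZMod M), y ^ L = 1) {ψ : MulAut (FreeGroup (Fin n))}
    (h : ψ ∈ Tr (n := n) (Hs (ZMod L))) : ψ ∈ N1 (Fin n) M := by
  let A : Matrix.SpecialLinearGroup (Fin n) ℤ := ⟨mA ψ, det_one hL h⟩
  have hA : Cgr (L : ℤ) A := fun i j => cong_mat h i j
  have h1 : A ∈ El (Fin n) (L : ℤ) := by
    obtain ⟨k, rfl⟩ : ∃ k, n = k + 3 := ⟨n - 3, by omega⟩
    exact bls (by exact_mod_cast (by omega : L ≠ 0)) k A hA
  obtain ⟨β, hβ, hβ2⟩ := El_lift h1
  have h2 : ψ * β⁻¹ ∈ IA (FreeGroup (Fin n)) := by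
    rw [mem_IA_iff, mA_mul, mt_inv_of hβ2]
    show mA ψ * mt A⁻¹ = 1
    have : mt A * mt A⁻¹ = 1 := by rw [← mt_mul, mul_inv_cancel, mt_one]
    exact this
  have h4 : ψ ∈ Tr (n := n) (Hs (ZMod M)) := by
    intro f x
    have hsur : Function.Surjective (Hs.map (ZMod.castHom hML (ZMod M))) := by
      intro y
      obtain ⟨a, ha⟩ := ZMod.castHom_surjective hML y.a
      obtain ⟨b, hb⟩ := ZMod.castHom_surjective hML y.b
      obtain ⟨c, hc⟩ := ZMod.castHom_surjective hML y.c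
      exact ⟨⟨a, b, c⟩, Hs.ext ha hb hc⟩
    choose s hs using hsur
    have e : f = (Hs.map (ZMod.castHom hML (ZMod M))).comp (FreeGroup.lift fun j => s (f (of j))) := by
      ext1 j
      rw [MonoidHom.comp_apply, FreeGroup.lift_apply_of, hs]
    rw [e, MonoidHom.comp_apply, MonoidHom.comp_apply, h]
  have h5 : ψ * β⁻¹ ∈ N1 (Fin n) M :=
    johnson hM h2 (mul_mem h4 (inv_mem (N2_Tr hc hβ)))
  have h6 := mul_mem h5 (N2_le hM hML hβ)
  rwa [inv_mul_cancel_right] at h6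

/-- the level -/
noncomputable def lev (M : ℕ) : ℕ := 4 * M * Nat.card (Hs (ZMod M))

theorem asm' (h3 : 3 ≤ n) {M : ℕ} (hM : 0 < M) {ψ : MulAut (FreeGroup (Fin n))}
    (h : ψ ∈ Tr (n := n) (Hs (ZMod (lev M)))) : ψ ∈ N1 (Fin n) M := by
  have : NeZero M := ⟨hM.ne'⟩
  have hc : 0 < Nat.card (Hs (ZMod M)) := Nat.card_pos
  apply asm h3 hM ?_ ?_ ?_ h
  · unfold lev
    have : 1 ≤ M * Nat.card (Hs (ZMod M)) := Nat.mul_pos hM hc
    nlinarith
  · exact ⟨4 * Nat.card (Hs (ZMod M)), by unfold lev; ring⟩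
  · intro y
    unfold lev
    rw [mul_comm, pow_mul, pow_card_eq_one', one_pow]

theorem lev_pos {M : ℕ} (hM : 0 < M) : 0 < lev M := by
  have : NeZero M := ⟨hM.ne'⟩
  have hc : 0 < Nat.card (Hs (ZMod M)) := Nat.card_pos
  unfold lev
  positivity

end gen

end Pool.Agent.U181.CF
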