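import Pool.Agent.U181.CF.Kap
import Pool.Agent.U181.CF.Asm

set_option autoImplicit false
set_option linter.unusedSectionVars false

/-! Automorphisms acting trivially on a finite quotient of `F_n` lie in the normal closure of the
commutators of transvections of one letter and the powers of the transvections. -/

namespace Pool.Agent.U181.CF

open Pool.Agent.Helper156.OF (Lt SP eAut toAut nv rel_aut)
open Pool.Agent.TH271.CU (KK MM)
open Pool.Agent.Helper460_OutF (rr ll cc aut_ext cc_eq rr_self rr_ne ll_self ll_ne kil_ne prod_cc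
  cc_self cc_ne N1 N1_le Step ll_rr_comm)
open Pool.Agent.Helper460_CSP (Hs Rr Rr_add Rr_zero Rr_single Rr_smul xv xv_of xv_mul xv_one)
open Pool.Agent.W7h60.QQ (mg ab ab_mul ab_one ab_inv mg_of)
open FreeGroup (of)
open scoped commutatorElement

variable {n : ℕ}

/-- the normal closure of the commutators of transvections of one letter and the `m`-th powers of
the transvections -/
def N0 (n m : ℕ) : Subgroup (MulAut (FreeGroup (Fin n))) :=
  Subgroup.normalClosure ({x | ∃ i a b, i ≠ a ∧ i ≠ b ∧ a ≠ b ∧ x = rr i ⁅of a, of b⁆} ∪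
    {x | ∃ i j, i ≠ j ∧ x = rr i (of j) ^ m})

instance N0_normal (m : ℕ) : (N0 n m).Normal := Subgroup.normalClosure_normal

theorem N0_comm (m : ℕ) : ∀ i a b : Fin n, i ≠ a → i ≠ b → a ≠ b → rr i ⁅of a, of b⁆ ∈ N0 n m :=
  fun i a b h1 h2 h3 => Subgroup.subset_normalClosure (Or.inl ⟨i, a, b, h1, h2, h3, rfl⟩)

theorem N0_pow (m : ℕ) : ∀ i j : Fin n, i ≠ j → rr i (of j) ^ m ∈ N0 n m :=
  fun i j h => Subgroup.subset_normalClosure (Or.inr ⟨i, j, h, rfl⟩)

theorem N0_le {m : ℕ} {N : Subgroup (MulAut (FreeGroup (Fin n)))} (hN : N.Normal)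
    (h1 : ∀ i a b : Fin n, i ≠ a → i ≠ b → a ≠ b → rr i ⁅of a, of b⁆ ∈ N)
    (h2 : ∀ i j : Fin n, i ≠ j → rr i (of j) ^ m ∈ N) : N0 n m ≤ N := by
  apply Subgroup.normalClosure_le_normal
  rintro _ (⟨i, a, b, k1, k2, k3, rfl⟩ | ⟨i, j, k1, rfl⟩)
  · exact h1 _ _ _ k1 k2 k3
  · exact h2 _ _ k1

theorem N0_KK1 (m : ℕ) : N0 n m ≤ KK1 (Fin n) (ZMod m) :=
  N0_le inferInstance (fun _ _ _ h1 h2 _ => comm_KK1 h1 h2)
    (fun _ _ h => pow_KK1 (ZMod.natCast_self m) h)

/-- the quotient map -/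
def q0 (n m : ℕ) : MulAut (FreeGroup (Fin n)) →* MulAut (FreeGroup (Fin n)) ⧸ N0 n m :=
  QuotientGroup.mk' (N0 n m)

theorem q0_one {m : ℕ} {x : MulAut (FreeGroup (Fin n))} : q0 n m x = 1 ↔ x ∈ N0 n m :=
  QuotientGroup.eq_one_iff x

theorem q0_MM (m : ℕ) : ∀ x y z : Lt (Fin n), x.1 ≠ y.1 → x.1 ≠ z.1 → y.1 ≠ z.1 →
    q0 n m (MM eAut x y z) = 1 := fun x y z h1 h2 h3 =>
  q0_one.2 (mm_mem inferInstance (N0_comm m) x y z h1 h2 h3)

theorem q0_indep {m : ℕ} {i j a : Fin n} (hi : i ≠ a) (hj : j ≠ a) :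
    q0 n m (cc i (of a)) = q0 n m (cc j (of a)) := by
  by_cases h : i = j
  · rw [h]
  · rw [← kk_cc hi, ← kk_cc hj]
    exact kk_indep (q0_MM m) h hi hj

theorem cc_comm_mem {m : ℕ} {i a b : Fin n} (h1 : i ≠ a) (h2 : i ≠ b) (h3 : a ≠ b) :
    cc i ⁅of a, of b⁆ ∈ N0 n m := by
  rw [cc_eq]
  refine mul_mem ?_ (N0_comm m i a b h1 h2 h3)
  rw [← mm_ll h1 h2]
  exact mm_mem inferInstance (N0_comm m) _ _ _ h1 h2 h3

theorem cc_pow_mem {m : ℕ} {i a : Fin n} (h1 : i ≠ a) : cc i (of a) ^ m ∈ N0 n m := by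
  have hc : Commute (ll i (of a)) (rr i (of a)) := ll_rr_comm i (of a) (of a)
  rw [cc_eq, hc.mul_pow]
  refine mul_mem ?_ (N0_pow m i a h1)
  rw [← e_ll h1]
  exact pow_mem inferInstance (N0_pow m) (i, false) (a, true) h1

/-- the preimage of the image of the inner automorphisms -/
def NI (n m : ℕ) : Subgroup (MulAut (FreeGroup (Fin n))) :=
  ((MulAut.conj : FreeGroup (Fin n) →* MulAut (FreeGroup (Fin n))).range.map (q0 n m)).comap
    (q0 n m)

theorem mem_NI {m : ℕ} {x : MulAut (FreeGroup (Fin n))} :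
    x ∈ NI n m ↔ ∃ g, q0 n m (MulAut.conj g) = q0 n m x := by
  constructor
  · rintro ⟨_, ⟨g, rfl⟩, h⟩
    exact ⟨g, h⟩
  · rintro ⟨g, h⟩
    exact ⟨_, ⟨g, rfl⟩, h⟩

instance NI_normal (m : ℕ) : (NI n m).Normal := by
  refine ⟨fun x hx φ => ?_⟩
  obtain ⟨g, hg⟩ := mem_NI.1 hx
  refine mem_NI.2 ⟨φ g, ?_⟩
  have e : MulAut.conj (φ g) = φ * MulAut.conj g * φ⁻¹ := by
    rw [eq_mul_inv_iff_mul_eq]
    ext x
    simp [MulAut.conj_apply]
  rw [e, map_mul, map_mul, hg, map_mul, map_mul]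

theorem N1_NI {m : ℕ} (hm : 0 < m) : N1 (Fin n) m ≤ NI n m := by
  have hle : N0 n m ≤ NI n m := by
    intro x hx
    exact mem_NI.2 ⟨1, by rw [map_one, map_one, q0_one.2 hx]⟩
  apply N1_le (M := m)
  refine ⟨hm, fun g => mem_NI.2 ⟨g, rfl⟩, ?_, fun i j h => hle (N0_pow m i j h)⟩
  intro i a b h1 h2
  by_cases h3 : a = b
  · subst h3
    rw [commutatorElement_self, map_one]
    exact one_mem _
  · exact hle (cc_comm_mem h1 h2 h3)

theorem exists_other (h2 : 2 ≤ n) (a : Fin n) : ∃ i : Fin n, i ≠ a := by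
  have : Nontrivial (Fin n) := Fin.nontrivial_iff_two_le.2 h2
  exact exists_ne a

section cent

/-- the common image of the partial conjugations -/
noncomputable def cx (h3 : 3 ≤ n) (m : ℕ) (a : Fin n) : MulAut (FreeGroup (Fin n)) ⧸ N0 n m :=
  q0 n m (cc (exists_other (by omega) a).choose (of a))

theorem cx_eq (h3 : 3 ≤ n) {m : ℕ} {i a : Fin n} (h : i ≠ a) : q0 n m (cc i (of a)) = cx h3 m a :=
  q0_indep h (exists_other (by omega) a).choose_spec

theorem cx_pow (h3 : 3 ≤ n) (m : ℕ) (a : Fin n) : cx h3 m a ^ m = 1 := by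
  unfold cx
  rw [← map_pow, q0_one]
  exact cc_pow_mem (exists_other (by omega) a).choose_spec

theorem cx_comm (h3 : 3 ≤ n) (m : ℕ) (a b : Fin n) : cx h3 m a * cx h3 m b = cx h3 m b * cx h3 m a := by
  by_cases h : a = b
  · rw [h]
  obtain ⟨i, hi⟩ := exists_out (ι := Fin n) (s := {a, b})
    (lt_of_le_of_lt Finset.card_le_two (by rw [Fintype.card_fin]; omega))
  simp only [Finset.mem_insert, Finset.mem_singleton, not_or] at hi
  rw [← cx_eq h3 hi.1, ← cx_eq h3 hi.2]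
  have h4 := q0_one.2 (cc_comm_mem (m := m) hi.1 hi.2 h)
  rw [map_commutatorElement, map_commutatorElement, commutatorElement_eq_one_iff_mul_comm] at h4
  exact h4

/-- the subgroup generated by the common images -/
def ZZ (h3 : 3 ≤ n) (m : ℕ) : Subgroup (MulAut (FreeGroup (Fin n)) ⧸ N0 n m) :=
  Subgroup.closure (Set.range (cx h3 m))

noncomputable instance ZZcomm (h3 : 3 ≤ n) (m : ℕ) : CommGroup (ZZ h3 m) :=
  { (inferInstance : Group (ZZ h3 m)) with
    mul_comm := fun a b => by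
      have h : ∀ x ∈ ZZ h3 m, ∀ y ∈ ZZ h3 m, x * y = y * x := by
        intro x hx y hy
        unfold ZZ at hx hy
        induction hx, hy using Subgroup.closure_induction₂ with
        | mem x y hx hy =>
          obtain ⟨a, rfl⟩ := hx
          obtain ⟨b, rfl⟩ := hy
          exact cx_comm h3 m a b
        | one_left x _ => rw [one_mul, mul_one]
        | one_right x _ => rw [one_mul, mul_one]
        | mul_left x y z _ _ _ h1 h2 => exact (Commute.mul_left h1 h2)
        | mul_right x y z _ _ _ h1 h2 => exact (Commute.mul_right h1 h2)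
        | inv_left x y _ _ h1 => exact (Commute.inv_left h1)
        | inv_right x y _ _ h1 => exact (Commute.inv_right h1)
      exact Subtype.ext (h a a.2 b b.2) }

/-- the generators -/
noncomputable def Xc (h3 : 3 ≤ n) (m : ℕ) (a : Fin n) : ZZ h3 m := ⟨cx h3 m a, Subgroup.subset_closure ⟨a, rfl⟩⟩

/-- the formula for the image of the inner automorphisms -/
noncomputable def EE (h3 : 3 ≤ n) (m : ℕ) : FreeGroup (Fin n) →* ZZ h3 m where
  toFun g := ((Rr (Xc h3 m) (xv g)) ^ (n - 1))⁻¹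
  map_one' := by rw [xv_one, Rr_zero, one_pow, inv_one]
  map_mul' x y := by rw [xv_mul, Rr_add, mul_pow, mul_inv]

theorem q0_conj (h3 : 3 ≤ n) (m : ℕ) (g : FreeGroup (Fin n)) :
    q0 n m (MulAut.conj g) = ((EE h3 m g : ZZ h3 m) : MulAut (FreeGroup (Fin n)) ⧸ N0 n m) := by
  have : (q0 n m).comp (MulAut.conj : FreeGroup (Fin n) →* MulAut (FreeGroup (Fin n))) =
      (ZZ h3 m).subtype.comp (EE h3 m) := by
    apply FreeGroup.ext_hom
    intro a
    show q0 n m (MulAut.conj (of a)) = (((Rr (Xc h3 m) (xv (of a))) ^ (n - 1))⁻¹ : ZZ h3 m)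
    rw [xv_of, Rr_single]
    have h1 : q0 n m (MulAut.conj (of a)⁻¹) = cx h3 m a ^ (n - 1) := by
      rw [← conj_inv_eq, map_list_prod, List.map_map]
      have h2 : ((Finset.univ.erase a).toList.map (⇑(q0 n m) ∘ fun i => cc i (of a))) =
          List.replicate (n - 1) (cx h3 m a) := by
        rw [List.eq_replicate_iff]
        constructor
        · rw [List.length_map, Finset.length_toList, Finset.card_erase_of_mem (Finset.mem_univ a),
            Finset.card_univ, Fintype.card_fin]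
        · intro y hy
          rw [List.mem_map] at hy
          obtain ⟨i, hi, rfl⟩ := hy
          simp at hi
          exact cx_eq h3 hi
      rw [h2, List.prod_replicate]
    have h2 : MulAut.conj (of a) = (MulAut.conj (of a)⁻¹ : MulAut (FreeGroup (Fin n)))⁻¹ := by
      rw [← map_inv, inv_inv]
    rw [h2, map_inv, h1]
    rfl
  exact DFunLike.congr_fun this g

theorem q0_conj_one (h3 : 3 ≤ n) {m : ℕ} {g : FreeGroup (Fin n)} (h : ∀ a, ∃ t : ℤ, ((n - 1 : ℕ) : ℤ) * xv g a = m * t) :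
    q0 n m (MulAut.conj g) = 1 := by
  rw [q0_conj h3 m]
  have : EE h3 m g = 1 := by
    show ((Rr (Xc h3 m) (xv g)) ^ (n - 1))⁻¹ = 1
    rw [inv_eq_one, ← Rr_smul]
    unfold Rr
    apply Finset.prod_eq_one
    intro a _
    obtain ⟨t, ht⟩ := h a
    show Xc h3 m a ^ (((n - 1 : ℕ) : ℤ) * xv g a) = 1
    rw [ht, zpow_mul, zpow_natCast]
    have h4 : Xc h3 m a ^ m = 1 := Subtype.ext (cx_pow h3 m a)
    rw [h4, one_zpow]
  rw [this]
  rfl

end cent

theorem ab_xv {R : Type} [CommRing R] (g : FreeGroup (Fin n)) (a : Fin n) :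
    ab (R := R) g a = ((xv g a : ℤ) : R) := by
  induction g using FreeGroup.induction_on with
  | C1 => rw [ab_one, xv_one]; simp
  | of j =>
    show ab (of j) a = _
    have hj : xv (of j) = Pi.single j 1 := xv_of j
    rw [show xv (FreeGroup.of j) = Pi.single j 1 from hj]
    unfold ab
    rw [mg_of]
    simp only
    rcases eq_or_ne a j with rfl | hk
    · simp
    · simp [Pi.single_eq_of_ne hk]
  | inv_of j h =>
    rw [ab_inv, Pi.neg_apply, h, Pool.Agent.Helper460_CSP.xv_inv, Pi.neg_apply, Int.cast_neg]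
  | mul x y hx hy => rw [ab_mul, xv_mul, Pi.add_apply, Pi.add_apply, hx, hy, Int.cast_add]

/-- **The main step.** -/
theorem mem_N0 (h3 : 3 ≤ n) {m : ℕ} (hm : 0 < m) {ψ : MulAut (FreeGroup (Fin n))}
    (h1 : ψ ∈ Tr (n := n) (Hs (ZMod (lev m))))
    (h2 : ∀ i, mg (R := ZMod m) (ψ (of i)) = mg (of i)) : ψ ∈ N0 n m := by
  obtain ⟨g, hg⟩ := mem_NI.1 (N1_NI hm (asm' h3 hm h1))
  have h4 : (MulAut.conj g)⁻¹ * ψ ∈ N0 n m := by
    rw [← q0_one, map_mul, map_inv, hg, inv_mul_cancel]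
  have h5 : MulAut.conj g ∈ KK1 (Fin n) (ZMod m) := by
    have h6 := mul_mem (mg_KK1 h2) (inv_mem (N0_KK1 m h4))
    rwa [mul_inv_rev, inv_inv, mul_inv_cancel_left] at h6
  have h6 : KP (ZMod m) (MulAut.conj g) 0 :=
    ⟨h5.1, by rw [h5.2, TrivSqZeroExt.inr_zero, add_zero]⟩
  have h7 := (KP_conj (R := ZMod m) g).uniq h6
  rw [Fintype.card_fin] at h7
  have h8 : q0 n m (MulAut.conj g) = 1 := by
    apply q0_conj_one h3
    intro a
    have h9 := congrFun h7 a
    rw [Pi.smul_apply, ab_xv, nsmul_eq_mul, Pi.zero_apply] at h9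
    have h10 : ((((n - 1 : ℕ) : ℤ) * xv g a : ℤ) : ZMod m) = 0 := by
      push_cast
      exact h9
    exact (ZMod.intCast_zmod_eq_zero_iff_dvd _ _).1 h10
  rw [← q0_one, ← hg, h8]

end Pool.Agent.U181.CF
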