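import Mathlib
import Pool.Agent.W7h60.QR.Ring

set_option autoImplicit false
set_option linter.unusedSectionVars false

/-! Products of three disjoint `N`'s on a tensor product. -/

namespace Pool.Agent.U181.CF

open Pool.Agent.Helper156.OF Pool.Agent.TH271.CU Pool.Agent.W7h60.QQ Pool.Agent.W7h60.QR
open scoped TensorProduct

universe u v

theorem tri_ring {E : Type*} [Ring E] {A1 A2 A3 B1 B2 B3 : E} (c12 : A1 * B2 = B2 * A1)
    (c21 : B1 * A2 = A2 * B1) (c22 : A2 * B2 = B2 * A2)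
    (a12 : A1 * A2 = 0) (a13 : A1 * A3 = 0) (a23 : A2 * A3 = 0) (b12 : B1 * B2 = 0)
    (b13 : B1 * B3 = 0) (b23 : B2 * B3 = 0) (c33 : A3 * B3 = B3 * A3) :
    (A1 + B1 + A1 * B1) * ((A2 + B2 + A2 * B2) * (A3 + B3 + A3 * B3)) = 0 := by
  have h1 : (A2 + B2 + A2 * B2) * (A3 + B3 + A3 * B3) = A2 * B3 + B2 * A3 := by
    have e1 : A2 * (A3 * B3) = 0 := by rw [← mul_assoc, a23, zero_mul]
    have e2 : B2 * (A3 * B3) = 0 := by rw [c33, ← mul_assoc, b23, zero_mul]
    have e3 : A2 * B2 * A3 = 0 := by rw [c22, mul_assoc, a23, mul_zero]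
    have e4 : A2 * B2 * B3 = 0 := by rw [mul_assoc, b23, mul_zero]
    have e5 : A2 * B2 * (A3 * B3) = 0 := by rw [← mul_assoc, e3, zero_mul]
    calc (A2 + B2 + A2 * B2) * (A3 + B3 + A3 * B3)
        = A2 * A3 + A2 * B3 + A2 * (A3 * B3) + (B2 * A3 + B2 * B3 + B2 * (A3 * B3)) +
          (A2 * B2 * A3 + A2 * B2 * B3 + A2 * B2 * (A3 * B3)) := by noncomm_ring
      _ = _ := by rw [a23, e1, b23, e2, e3, e4, e5]; abel
  rw [h1]
  have e1 : A1 * (A2 * B3) = 0 := by rw [← mul_assoc, a12, zero_mul]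
  have e2 : B1 * (A2 * B3) = 0 := by rw [← mul_assoc, c21, mul_assoc, b13, mul_zero]
  have e3 : A1 * B1 * (A2 * B3) = 0 := by rw [mul_assoc, e2, mul_zero]
  have e4 : A1 * (B2 * A3) = 0 := by rw [← mul_assoc, c12, mul_assoc, a13, mul_zero]
  have e5 : B1 * (B2 * A3) = 0 := by rw [← mul_assoc, b12, zero_mul]
  have e6 : A1 * B1 * (B2 * A3) = 0 := by rw [mul_assoc, e5, mul_zero]
  rw [mul_add, add_mul, add_mul, add_mul, add_mul, e1, e2, e3, e4, e5, e6]
  simp

variable {α : Type} [DecidableEq α] [Fintype α]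
variable {A : Type u} [CommRing A] {W : Type u} [AddCommGroup W] [Module A W]
  {W' : Type u} [AddCommGroup W'] [Module A W']

/-- the diagonal action on the tensor product -/
noncomputable def tens (σ : MulAut (FreeGroup α) →* Module.End A W)
    (σ' : MulAut (FreeGroup α) →* Module.End A W') :
    MulAut (FreeGroup α) →* Module.End A (W ⊗[A] W') where
  toFun φ := TensorProduct.map (σ φ) (σ' φ)
  map_one' := by rw [map_one, map_one]; exact TensorProduct.map_id
  map_mul' φ ψ := by rw [map_mul, map_mul]; exact TensorProduct.map_comp _ _ _ _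

theorem tens_N (σ : MulAut (FreeGroup α) →* Module.End A W)
    (σ' : MulAut (FreeGroup α) →* Module.End A W') (x a : Lt α) :
    N (tens σ σ') x a = TensorProduct.map (N σ x a) LinearMap.id +
      TensorProduct.map LinearMap.id (N σ' x a) +
      TensorProduct.map (N σ x a) LinearMap.id * TensorProduct.map LinearMap.id (N σ' x a) := by
  apply TensorProduct.ext'
  intro w w'
  show σ (eAut x a) w ⊗ₜ[A] σ' (eAut x a) w' - w ⊗ₜ[A] w' =
    (σ (eAut x a) w - w) ⊗ₜ[A] w' + w ⊗ₜ[A] (σ' (eAut x a) w' - w') +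
      (σ (eAut x a) w - w) ⊗ₜ[A] (σ' (eAut x a) w' - w')
  simp only [TensorProduct.sub_tmul, TensorProduct.tmul_sub]
  abel

theorem tens_tri {σ : MulAut (FreeGroup α) →* Module.End A W}
    {σ' : MulAut (FreeGroup α) →* Module.End A W'} (H : DRel σ) (H' : DRel σ')
    {x1 a1 x2 a2 x3 a3 : Lt α} (h12 : Dj x1 a1 x2 a2) (h13 : Dj x1 a1 x3 a3)
    (h23 : Dj x2 a2 x3 a3) :
    N (tens σ σ') x1 a1 * (N (tens σ σ') x2 a2 * N (tens σ σ') x3 a3) = 0 := by
  have hdj : ∀ {x a y b : Lt α}, Dj x a y b → N σ x a * N σ y b = 0 := by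
    rintro x a y b ⟨q1, q2, q3, q4, q5, q6⟩
    exact H.dj x a y b q1 q2 q3 q4 q5 q6
  have hdj' : ∀ {x a y b : Lt α}, Dj x a y b → N σ' x a * N σ' y b = 0 := by
    rintro x a y b ⟨q1, q2, q3, q4, q5, q6⟩
    exact H'.dj x a y b q1 q2 q3 q4 q5 q6
  have hc : ∀ (f : Module.End A W) (g : Module.End A W'),
      (TensorProduct.map f LinearMap.id : Module.End A (W ⊗[A] W')) *
        TensorProduct.map LinearMap.id g =
      TensorProduct.map LinearMap.id g * TensorProduct.map f LinearMap.id := by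
    intro f g
    apply TensorProduct.ext'
    intro w w'
    rfl
  have hA : ∀ {f g : Module.End A W}, f * g = 0 →
      (TensorProduct.map f LinearMap.id : Module.End A (W ⊗[A] W')) *
        TensorProduct.map g LinearMap.id = 0 := by
    intro f g h
    apply TensorProduct.ext'
    intro w w'
    show (f * g) w ⊗ₜ[A] w' = 0
    rw [h]
    exact TensorProduct.zero_tmul _ _
  have hB : ∀ {f g : Module.End A W'}, f * g = 0 →
      (TensorProduct.map LinearMap.id f : Module.End A (W ⊗[A] W')) *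
        TensorProduct.map LinearMap.id g = 0 := by
    intro f g h
    apply TensorProduct.ext'
    intro w w'
    show w ⊗ₜ[A] (f * g) w' = 0
    rw [h]
    exact TensorProduct.tmul_zero _ _
  rw [tens_N, tens_N, tens_N]
  exact tri_ring (hc _ _) (hc _ _).symm (hc _ _) (hA (hdj h12)) (hA (hdj h13))
    (hA (hdj h23)) (hB (hdj' h12)) (hB (hdj' h13)) (hB (hdj' h23)) (hc _ _)

end Pool.Agent.U181.CF
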