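import Pool.Agent.U181.CF.Key
import Pool.Agent.W7h60.QQ.Fin
import Pool.Agent.Helper460_OutF.Comm

set_option autoImplicit false
set_option linter.unusedSectionVars false

/-! Partial conjugations modulo the commutators of transvections of one letter. -/

namespace Pool.Agent.U181.CF

open Pool.Agent.Helper156.OF hiding cc
open Pool.Agent.TH271.CU
open Pool.Agent.Helper460_OutF (rr ll cc aut_ext cc_eq rr_self rr_ne ll_self ll_ne kil_ne prod_cc)
open Pool.Agent.W7h60.QQ (sp_step aut_R aut_L)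
open FreeGroup (of)
open scoped commutatorElement

section ind

variable {α : Type} [DecidableEq α] [Fintype α] {P : Type} [Group P]
variable {q : MulAut (FreeGroup α) →* P}

theorem comm_of_conj {g h : MulAut (FreeGroup α)} (e : q (g * h * g⁻¹) = q h) :
    q g * q h = q h * q g := by
  rw [map_mul, map_mul, map_inv, mul_inv_eq_iff_eq_mul] at e
  exact e

variable (hM : ∀ x y z : Lt α, x.1 ≠ y.1 → x.1 ≠ z.1 → y.1 ≠ z.1 → q (MM eAut x y z) = 1)

include hM

theorem kk_c1 {y r z : Lt α} (h1 : y.1 ≠ r.1) (h2 : y.1 ≠ z.1)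
    (h3 : r.1 ≠ z.1) : q (eAut y r) * q (KK eAut y z) = q (KK eAut y z) * q (eAut y r) := by
  apply comm_of_conj
  rw [E_KK_same rel_aut h1 h2, map_mul, hM _ _ _ h1 h2 h3, one_mul]

theorem kk_c2 {y r z : Lt α} (h1 : y.1 ≠ r.1) (h2 : y.1 ≠ z.1)
    (h3 : r.1 ≠ z.1) : q (eAut r y) * q (KK eAut y z) = q (KK eAut y z) * q (eAut r y) := by
  apply comm_of_conj
  rw [E_KK_third rel_aut (Ne.symm h1) h3 h2, map_mul,
    hM _ _ _ (Ne.symm h1) (show r.1 ≠ (nv z).1 from h3) (show y.1 ≠ (nv z).1 from h2), one_mul]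

/-- `q (KK y z)` does not depend on `y` -/
theorem kk_indep {y r z : Lt α} (h1 : y.1 ≠ r.1) (h2 : y.1 ≠ z.1)
    (h3 : r.1 ≠ z.1) : q (KK eAut y z) = q (KK eAut r z) := by
  have R := rel_aut (α := α)
  set σ := sg y r with hσ
  have s1 : (σ : Equiv.Perm (Lt α)) y = nv r := sg_left
  have s2 : (σ : Equiv.Perm (Lt α)) r = y := sg_right h1
  have s3 : ∀ c : Lt α, c.1 ≠ y.1 → c.1 ≠ r.1 → (σ : Equiv.Perm (Lt α)) c = c :=
    fun c => sg_other
  have k1 := R.e4 y r σ h1 s1 s2 s3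
  have k2 : toAut σ = eAut (nv y) r * eAut r y * (eAut y r)⁻¹ := by rw [k1]; group
  have h1' : (nv y).1 ≠ r.1 := h1
  have h2' : (nv y).1 ≠ z.1 := h2
  have m1 : Commute (q (eAut (nv y) r)) (q (KK eAut y z)) := by
    have := kk_c1 hM h1' h2' h3
    rwa [KK_nv R] at this
  have m2 : Commute (q (eAut r y)) (q (KK eAut y z)) := kk_c2 hM h1 h2 h3
  have m3 : Commute (q (eAut y r)) (q (KK eAut y z)) := kk_c1 hM h1 h2 h3
  have m5 : Commute (q (toAut σ)) (q (KK eAut y z)) := by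
    rw [k2, map_mul, map_mul, map_inv]
    exact (m1.mul_left m2).mul_left m3.inv_left
  have m6 := congrArg q (W_KK R σ y z)
  rw [s1, s3 z (Ne.symm h2) (Ne.symm h3), KK_nv R, map_mul, map_mul, m5.eq, mul_assoc, ← map_mul,
    mul_inv_cancel, map_one, mul_one] at m6
  exact m6

end ind

section id

variable {α : Type} [DecidableEq α] [Fintype α]

theorem e_rr {i j : α} (h : i ≠ j) : eAut ((i, true) : Lt α) (j, true) = rr i (of j) := by
  apply aut_ext
  intro k
  rw [aut_R h]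
  by_cases hk : k = i
  · subst hk
    rw [if_pos rfl, rr_self, kil_ne (Ne.symm h)]
  · rw [if_neg hk, rr_ne hk]

theorem e_ll {i j : α} (h : i ≠ j) : eAut ((i, false) : Lt α) (j, true) = ll i (of j) := by
  apply aut_ext
  intro k
  rw [aut_L h]
  by_cases hk : k = i
  · subst hk
    rw [if_pos rfl, ll_self, kil_ne (Ne.symm h)]
  · rw [if_neg hk, ll_ne hk]

theorem kk_cc {i j : α} (h : i ≠ j) : KK eAut ((i, false) : Lt α) (j, true) = cc i (of j) := by
  unfold KK
  show eAut ((i, false) : Lt α) (j, true) * eAut ((i, true) : Lt α) (j, true) = _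
  rw [e_rr h, e_ll h, cc_eq]

theorem mm_rr {i a b : α} (h1 : i ≠ a) (h2 : i ≠ b) :
    MM eAut ((i, true) : Lt α) (a, true) (b, true) = rr i ⁅of a, of b⁆ := by
  unfold MM
  rw [e_rr h1, e_rr h2, map_commutatorElement, commutatorElement_def]

theorem mm_ll {i a b : α} (h1 : i ≠ a) (h2 : i ≠ b) :
    MM eAut ((i, false) : Lt α) (a, true) (b, true) = ll i ⁅of a, of b⁆ := by
  unfold MM
  rw [e_ll h1, e_ll h2, map_commutatorElement, commutatorElement_def]

theorem mm_mem {N : Subgroup (MulAut (FreeGroup α))} (hN : N.Normal)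
    (h : ∀ i a b : α, i ≠ a → i ≠ b → a ≠ b → rr i ⁅of a, of b⁆ ∈ N) :
    ∀ x y z : Lt α, x.1 ≠ y.1 → x.1 ≠ z.1 → y.1 ≠ z.1 → MM eAut x y z ∈ N := by
  intro x y z h1 h2 h3
  obtain ⟨s1, a1, -⟩ := sp_step (1 : SP α) (x.1, true) x
  obtain ⟨s2, a2, b2⟩ := sp_step s1 (y.1, true) y
  obtain ⟨s3, a3, b3⟩ := sp_step s2 (z.1, true) z
  have c2 : (s2 : Equiv.Perm (Lt α)) (x.1, true) = x := by
    rw [b2 (x.1, true) h1 (by rw [a1]; exact h1), a1]
  have c3 : (s3 : Equiv.Perm (Lt α)) (x.1, true) = x := by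
    rw [b3 (x.1, true) h2 (by rw [c2]; exact h2), c2]
  have d3 : (s3 : Equiv.Perm (Lt α)) (y.1, true) = y := by
    rw [b3 (y.1, true) h3 (by rw [a2]; exact h3), a2]
  have k := W_MM (rel_aut (α := α)) s3 (x.1, true) (y.1, true) (z.1, true)
  rw [c3, d3, a3, mm_rr h1 h2] at k
  rw [← k]
  exact hN.conj_mem _ (h _ _ _ h1 h2 h3) _

theorem pow_mem {N : Subgroup (MulAut (FreeGroup α))} (hN : N.Normal) {m : ℕ}
    (h : ∀ i j : α, i ≠ j → rr i (of j) ^ m ∈ N) :
    ∀ x y : Lt α, x.1 ≠ y.1 → eAut x y ^ m ∈ N := by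
  intro x y h1
  obtain ⟨s1, a1, -⟩ := sp_step (1 : SP α) (x.1, true) x
  obtain ⟨s2, a2, b2⟩ := sp_step s1 (y.1, true) y
  have c2 : (s2 : Equiv.Perm (Lt α)) (x.1, true) = x := by
    rw [b2 (x.1, true) h1 (by rw [a1]; exact h1), a1]
  have k := (rel_aut (α := α)).e0 s2 (x.1, true) (y.1, true)
  rw [c2, a2, e_rr h1] at k
  rw [← k, conj_pow]
  exact hN.conj_mem _ (h _ _ h1) _

/-- inner automorphisms as products of partial conjugations -/
theorem conj_inv_eq (a : α) :
    ((Finset.univ.erase a).toList.map (fun i => cc i (of a))).prod = MulAut.conj (of a)⁻¹ := by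
  apply aut_ext
  intro j
  rw [prod_cc (of a) _ (Finset.nodup_toList _), MulAut.conj_apply, inv_inv]
  · by_cases hj : j = a
    · subst hj
      rw [if_neg]
      · group
      · simp
    · rw [if_pos]
      simp [hj]
  · intro i hi
    apply kil_ne
    intro h7
    simp [h7] at hi

end id

end Pool.Agent.U181.CF
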