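import Pool.Agent.U181.CF.Ind
import Pool.Agent.W7h60.QQ.Fin

set_option autoImplicit false
set_option linter.unusedSectionVars false

/-! The determinant of the Jacobian on the normal closure of the commutators of transvections of
one letter and powers of transvections, and on inner automorphisms. -/

namespace Pool.Agent.U181.CF

open Pool.Agent.Helper156.OF hiding cc
open Pool.Agent.TH271.CU
open Pool.Agent.Helper460_OutF (rr ll cc aut_ext cc_eq rr_self rr_ne ll_self ll_ne kil_ne prod_cc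
  cc_self cc_ne)
open Pool.Agent.W7h60.QQ hiding tv
open FreeGroup (of)
open scoped commutatorElement

universe v

variable {α : Type} [DecidableEq α] [Fintype α] {R : Type v} [CommRing R]

theorem g0_eq_one {ψ : MulAut (FreeGroup α)} (h : ∀ k, ab (R := R) (ψ (of k)) = ab (of k)) :
    g0 (R := R) ψ = 1 := by
  rw [← g0_one (R := R)]
  apply Matrix.ext
  intro i j
  exact congrFun (h i) j

theorem G_eq_one {ψ : MulAut (FreeGroup α)} (h : g0 (R := R) ψ = 1) : G (R := R) ψ = 1 := by
  apply Units.ext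
  rw [G_val, h, Matrix.transpose_one]
  rfl

theorem g0_of_G {ψ : MulAut (FreeGroup α)} (h : G (R := R) ψ = 1) : g0 (R := R) ψ = 1 := by
  have h1 := congrArg (fun x : (Matrix α α R)ˣ => (x : Matrix α α R)) h
  simp only [G_val, Units.val_one] at h1
  rw [← Matrix.transpose_transpose (g0 ψ), h1, Matrix.transpose_one]

theorem sgm_one (x : SS α R) : sgm (1 : Matrix α α R) x = x := by
  unfold sgm
  ext : 1
  · rw [TrivSqZeroExt.fst_map]
  · rw [TrivSqZeroExt.snd_map]
    exact Matrix.vecMul_one _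

variable (α R) in
/-- automorphisms with trivial matrix and Jacobian determinant one -/
noncomputable def KK1 : Subgroup (MulAut (FreeGroup α)) where
  carrier := {ψ | G (R := R) ψ = 1 ∧ (J (R := R) ψ).det = 1}
  mul_mem' := by
    rintro ψ φ ⟨h1, h2⟩ ⟨h3, h4⟩
    exact ⟨by rw [map_mul, h1, h3, mul_one], by rw [det_mul', h2, h4, map_one, mul_one]⟩
  one_mem' := ⟨map_one _, by rw [J_one, Matrix.det_one]⟩
  inv_mem' := by
    rintro ψ ⟨h1, h2⟩
    refine ⟨by rw [map_inv, h1, inv_one], ?_⟩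
    have h3 := det_mul' (R := R) ψ ψ⁻¹
    rw [mul_inv_cancel, J_one, Matrix.det_one, h2, mul_one, g0_of_G h1, sgm_one] at h3
    exact h3.symm

theorem mem_KK1 {ψ : MulAut (FreeGroup α)} :
    ψ ∈ KK1 α R ↔ G (R := R) ψ = 1 ∧ (J (R := R) ψ).det = 1 := Iff.rfl

instance KK1_normal : (KK1 α R).Normal := by
  refine ⟨?_⟩
  rintro κ ⟨h1, h2⟩ g
  refine ⟨?_, ?_⟩
  · rw [map_mul, map_mul, h1, mul_one, ← map_mul, mul_inv_cancel, map_one]
  · have e1 : (J (R := R) (g * κ)).det = (J (R := R) g).det := by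
      rw [det_mul', h2, map_one, one_mul]
    have e2 : g0 (R := R) (g * κ) = g0 g := by
      have : G (R := R) (g * κ) = G g := by rw [map_mul, h1, mul_one]
      have h3 := congrArg (fun x : (Matrix α α R)ˣ => (x : Matrix α α R)) this
      simp only [G_val] at h3
      rw [← Matrix.transpose_transpose (g0 (g * κ)), h3, Matrix.transpose_transpose]
    have e3 := det_mul' (R := R) (g * κ) g⁻¹
    have e4 := det_mul' (R := R) g g⁻¹
    rw [e1, e2, ← e4, mul_inv_cancel, J_one, Matrix.det_one] at e3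
    exact e3

/-- automorphisms with Jacobian determinant one -/
def DD1 (R : Type v) [CommRing R] (ψ : MulAut (FreeGroup α)) : Prop := (J (R := R) ψ).det = 1

theorem DD1.mul {ψ φ : MulAut (FreeGroup α)} (h1 : DD1 R ψ) (h2 : DD1 R φ) :
    DD1 R (ψ * φ) := by
  unfold DD1 at *
  rw [det_mul', h1, h2, map_one, mul_one]

theorem DD1.inv {ψ : MulAut (FreeGroup α)} (h1 : DD1 R ψ) : DD1 R ψ⁻¹ := by
  unfold DD1 at *
  have h3 := det_mul' (R := R) ψ⁻¹ ψ
  rw [inv_mul_cancel, J_one, Matrix.det_one, h1, map_one, one_mul] at h3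
  exact h3.symm

theorem DD1.pow {ψ : MulAut (FreeGroup α)} (h1 : DD1 R ψ) (k : ℕ) : DD1 R (ψ ^ k) := by
  induction k with
  | zero =>
    unfold DD1
    rw [pow_zero, J_one, Matrix.det_one]
  | succ k ih => rw [pow_succ]; exact ih.mul h1

theorem DD1_rr {i j : α} (h : i ≠ j) : DD1 R (rr i (of j)) := by
  unfold DD1
  rw [← e_rr h, det_R h]

theorem comm_KK1 {i a b : α} (h1 : i ≠ a) (h2 : i ≠ b) : rr i ⁅of a, of b⁆ ∈ KK1 α R := by
  refine ⟨G_eq_one (g0_eq_one fun k => ?_), ?_⟩
  · by_cases hk : k = i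
    · subst hk
      rw [rr_self, map_commutatorElement, kil_ne (Ne.symm h1), kil_ne (Ne.symm h2), ab_mul,
        commutatorElement_def, ab_mul, ab_mul, ab_mul, ab_inv, ab_inv]
      abel
    · rw [rr_ne hk]
  · rw [map_commutatorElement, commutatorElement_def]
    exact (((DD1_rr h1).mul (DD1_rr h2)).mul (DD1_rr h1).inv).mul (DD1_rr h2).inv

theorem rr_pow_apply {i j : α} (h : i ≠ j) (m : ℕ) (k : α) :
    (rr i (of j) ^ m) (of k) = if k = i then of i * of j ^ m else of k := by
  rw [← map_pow]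
  by_cases hk : k = i
  · subst hk
    rw [rr_self, if_pos rfl, map_pow, kil_ne (Ne.symm h)]
  · rw [if_neg hk, rr_ne hk]

theorem ab_pow (x : FreeGroup α) (m : ℕ) : ab (R := R) (x ^ m) = m • ab x := by
  induction m with
  | zero => rw [pow_zero, ab_one, zero_smul]
  | succ m ih => rw [pow_succ, ab_mul, ih, succ_nsmul]

theorem pow_KK1 {m : ℕ} (hm : (m : R) = 0) {i j : α} (h : i ≠ j) :
    rr i (of j) ^ m ∈ KK1 α R := by
  refine ⟨G_eq_one (g0_eq_one fun k => ?_), (DD1_rr h).pow m⟩
  rw [rr_pow_apply h]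
  by_cases hk : k = i
  · subst hk
    rw [if_pos rfl, ab_mul, ab_pow]
    funext l
    rw [Pi.add_apply, Pi.smul_apply, nsmul_eq_mul, hm, zero_mul, add_zero]
  · rw [if_neg hk]

theorem mg_KK1 {ψ : MulAut (FreeGroup α)}
    (h : ∀ i, mg (R := R) (ψ (of i)) = mg (of i)) : ψ ∈ KK1 α R := by
  have e1 : J (R := R) ψ = J 1 := by
    apply Matrix.ext
    intro i j
    show (mg (R := R) (ψ (of i))).v j = (mg (R := R) (of i)).v j
    rw [h]
  refine ⟨G_eq_one (g0_eq_one fun k => ?_), by rw [e1, J_one, Matrix.det_one]⟩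
  unfold ab
  rw [h]

/-- the value of the logarithmic determinant -/
def KP (R : Type v) [CommRing R] (ψ : MulAut (FreeGroup α)) (w : α → R) : Prop :=
  G (R := R) ψ = 1 ∧ (J (R := R) ψ).det = 1 + TrivSqZeroExt.inr w

theorem KP.mul {ψ φ : MulAut (FreeGroup α)} {v w : α → R} (h1 : KP R ψ v) (h2 : KP R φ w) :
    KP R (ψ * φ) (v + w) := by
  obtain ⟨a1, a2⟩ := h1
  obtain ⟨b1, b2⟩ := h2
  refine ⟨by rw [map_mul, a1, b1, mul_one], ?_⟩
  rw [det_mul', g0_of_G a1, sgm_one, a2, b2, mul_add, add_mul, add_mul,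
    TrivSqZeroExt.inr_mul_inr, one_mul, mul_one, one_mul, add_zero, TrivSqZeroExt.inr_add]
  abel

theorem KP.one : KP R (1 : MulAut (FreeGroup α)) 0 :=
  ⟨map_one _, by rw [J_one, Matrix.det_one, TrivSqZeroExt.inr_zero, add_zero]⟩

theorem KP.uniq {ψ : MulAut (FreeGroup α)} {v w : α → R} (h1 : KP R ψ v) (h2 : KP R ψ w) :
    v = w := by
  have h := h1.2.symm.trans h2.2
  have h3 := congrArg TrivSqZeroExt.snd h
  simpa using h3

theorem KP.inv {ψ : MulAut (FreeGroup α)} {v : α → R} (h1 : KP R ψ v) : KP R ψ⁻¹ (-v) := by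
  obtain ⟨a1, a2⟩ := h1
  refine ⟨by rw [map_inv, a1, inv_one], ?_⟩
  have h3 := det_mul' (R := R) ψ ψ⁻¹
  rw [mul_inv_cancel, J_one, Matrix.det_one, g0_of_G a1, sgm_one, a2] at h3
  have h4 : (1 + TrivSqZeroExt.inr v) * (1 + TrivSqZeroExt.inr (-v)) = (1 : SS α R) := by
    rw [mul_add, add_mul, add_mul, TrivSqZeroExt.inr_mul_inr, one_mul, mul_one, one_mul, add_zero,
      TrivSqZeroExt.inr_neg]
    abel
  calc (J (R := R) ψ⁻¹).det = (J (R := R) ψ⁻¹).det *
        ((1 + TrivSqZeroExt.inr v) * (1 + TrivSqZeroExt.inr (-v))) := by rw [h4, mul_one]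
    _ = ((J (R := R) ψ⁻¹).det * (1 + TrivSqZeroExt.inr v)) * (1 + TrivSqZeroExt.inr (-v)) := by
        rw [mul_assoc]
    _ = _ := by rw [← h3, one_mul]

theorem KP_cc {i a : α} (h : i ≠ a) : KP R (cc i (of a)) (-Pi.single a 1) := by
  refine ⟨G_eq_one (g0_eq_one fun k => ?_), ?_⟩
  · by_cases hk : k = i
    · subst hk
      rw [cc_self, kil_ne (Ne.symm h), ab_mul, ab_mul, ab_inv]
      abel
    · rw [cc_ne hk]
  · rw [cc_eq, ← e_rr h, ← e_ll h, det_mul', det_R h, det_L h, map_one, one_mul]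

theorem KP_list (a : α) (l : List α) (hl : ∀ i ∈ l, i ≠ a) :
    KP R ((l.map (fun i => cc i (of a))).prod) (-(l.length • Pi.single a 1)) := by
  induction l with
  | nil =>
    rw [List.map_nil, List.prod_nil, List.length_nil, zero_smul, neg_zero]
    exact KP.one
  | cons i l ih =>
    rw [List.map_cons, List.prod_cons, List.length_cons, succ_nsmul, neg_add, add_comm]
    exact (KP_cc (hl i List.mem_cons_self)).mul (ih fun j hj => hl j (List.mem_cons_of_mem _ hj))

theorem KP_conj (g : FreeGroup α) :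
    KP R (MulAut.conj g) ((Fintype.card α - 1) • ab (R := R) g) := by
  have hab : ∀ a : α, ab (R := R) (of a) = Pi.single a 1 := by
    intro a
    funext k
    unfold ab
    rw [mg_of]
    simp only
    rcases eq_or_ne k a with rfl | hk
    · simp
    · simp [Pi.single_eq_of_ne hk]
  have hof : ∀ a : α, KP R (MulAut.conj (of a)⁻¹) ((Fintype.card α - 1) • ab (R := R) (of a)⁻¹) := by
    intro a
    have h1 := KP_list (R := R) a (Finset.univ.erase a).toList (fun i hi => by
      simp at hi; exact hi)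
    rw [conj_inv_eq, Finset.length_toList, Finset.card_erase_of_mem (Finset.mem_univ a),
      Finset.card_univ] at h1
    rw [ab_inv, hab, smul_neg]
    exact h1
  induction g using FreeGroup.induction_on with
  | C1 =>
    rw [map_one, ab_one, smul_zero]
    exact KP.one
  | of a =>
    have h1 := (hof a).inv
    rw [← map_inv, inv_inv, ← smul_neg, ← ab_inv, inv_inv] at h1
    exact h1
  | inv_of a h => exact hof a
  | mul x y hx hy =>
    rw [map_mul, ab_mul, smul_add]
    exact hx.mul hy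

end Pool.Agent.U181.CF
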