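import Pool.Agent.Helper460_OutF.B1

set_option autoImplicit false
set_option linter.unusedSectionVars false

/-! Triple commutators with transvections with disjoint supports. -/

namespace Pool.Agent.U181.CF

open Pool.Agent.Helper460_OutF
open FreeGroup (of)
open scoped commutatorElement

variable {ι : Type} [DecidableEq ι]

theorem conj1 {x y : ι} (hxy : x ≠ y) {w : FreeGroup ι} (hx : kil x w = w) (hy : kil y w = w) :
    (rr y (of x))⁻¹ * rr x w * rr y (of x) = rr y w * rr x w := by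
  rw [← map_inv]
  apply aut_ext
  intro j
  have hy' : kil y (of x) = of x := kil_ne hxy
  rw [MulAut.mul_apply, MulAut.mul_apply, MulAut.mul_apply]
  by_cases h1 : j = y
  · subst h1
    rw [rr_self, hy', map_mul, rr_ne (Ne.symm hxy), rr_self, hx, map_mul, rr_self, map_inv, hy',
      map_mul, rr_ne hxy, rr_fix _ _ hy, rr_self, hy]
    group
  · rw [rr_ne h1]
    by_cases h2 : j = x
    · subst h2
      rw [rr_self, hx, map_mul, rr_ne hxy, rr_fix _ _ hy, map_mul, rr_ne hxy, rr_fix _ _ hy]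
    · rw [rr_ne h2, rr_ne h1, rr_ne h1]

theorem comm_pres {y : ι} {θ : MulAut (FreeGroup ι)} (h : Pres y θ) (w : FreeGroup ι) :
    ⁅θ, rr y w⁆ = rr y (θ w * w⁻¹) := by
  rw [commutatorElement_def, h.rr, map_mul, map_inv]

theorem trip {a b c d x y : ι} (hab : a ≠ b) (hac : a ≠ c) (had : a ≠ d) (hax : a ≠ x)
    (hay : a ≠ y) (hbd : b ≠ d) (hbx : b ≠ x) (hby : b ≠ y)
    (hcy : c ≠ y) (hdy : d ≠ y) (hxy : x ≠ y) :
    ⁅rr a (of c), ⁅rr b (of d), ⁅rr y (of x),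
      (rr y (of x))⁻¹ * rr x ⁅of a, of b⁆ * rr y (of x)⁆⁆⁆ =
      rr y (of b * of d * of a * (of d)⁻¹) * rr y ⁅of d, of c⁆ *
        (rr y (of b * of d * of a * (of d)⁻¹))⁻¹ := by
  have hx : kil x ⁅of a, of b⁆ = ⁅of a, of b⁆ := by
    rw [map_commutatorElement, kil_ne hax, kil_ne hbx]
  have hy : kil y ⁅of a, of b⁆ = ⁅of a, of b⁆ := by
    rw [map_commutatorElement, kil_ne hay, kil_ne hby]
  have e1 : ⁅rr y (of x), (rr y (of x))⁻¹ * rr x ⁅of a, of b⁆ * rr y (of x)⁆ =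
      rr y ⁅of b, of a⁆ := by
    have : ⁅rr y (of x), (rr y (of x))⁻¹ * rr x ⁅of a, of b⁆ * rr y (of x)⁆ =
        rr x ⁅of a, of b⁆ * ((rr y (of x))⁻¹ * rr x ⁅of a, of b⁆ * rr y (of x))⁻¹ := by
      rw [commutatorElement_def]
      group
    rw [this, conj1 hxy hx hy, mul_inv_rev, mul_inv_cancel_left, ← map_inv,
      commutatorElement_inv]
  have p1 : Pres y (rr b (of d)) := pres_rr (Ne.symm hby) (kil_ne hdy)
  have p2 : Pres y (rr a (of c)) := pres_rr (Ne.symm hay) (kil_ne hcy)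
  have e2 : rr b (of d) ⁅of b, of a⁆ = ⁅of b * of d, of a⁆ := by
    rw [map_commutatorElement, rr_self, kil_ne (Ne.symm hbd), rr_ne hab]
  have e3 : rr a (of c) (⁅of b * of d, of a⁆ * ⁅of b, of a⁆⁻¹) =
      ⁅of b * of d, of a * of c⁆ * ⁅of b, of a * of c⁆⁻¹ := by
    rw [map_mul, map_inv, map_commutatorElement, map_commutatorElement, map_mul, rr_self,
      kil_ne (Ne.symm hac), rr_ne (Ne.symm hab), rr_ne (Ne.symm had)]
  rw [e1, comm_pres p1, e2, comm_pres p2, e3, ← map_inv, ← map_mul, ← map_mul]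
  congr 1
  simp only [commutatorElement_def]
  group

variable [Fintype ι]

theorem exists_out {s : Finset ι} (h : s.card < Fintype.card ι) : ∃ i, i ∉ s := by
  by_contra hc
  push Not at hc
  rw [Finset.eq_univ_iff_forall.2 hc, Finset.card_univ] at h
  omega

theorem key (h6 : 6 ≤ Fintype.card ι) {N N' : Subgroup (MulAut (FreeGroup ι))} (hN : N.Normal)
    (hN' : N'.Normal)
    (hk : ∀ i a b : ι, i ≠ a → i ≠ b → a ≠ b → rr i ⁅of a, of b⁆ ∈ N')
    (ht : ∀ a b c d x y : ι, a ≠ b → a ≠ c → a ≠ d → a ≠ x → a ≠ y → b ≠ c → b ≠ d → b ≠ x →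
      b ≠ y → c ≠ d → c ≠ x → c ≠ y → d ≠ x → d ≠ y → x ≠ y → ∀ v ∈ N',
      ⁅rr a (of c), ⁅rr b (of d), ⁅rr y (of x), v⁆⁆⁆ ∈ N) :
    ∀ i a b : ι, i ≠ a → i ≠ b → a ≠ b → rr i ⁅of a, of b⁆ ∈ N := by
  intro y d c hyd hyc hdc
  obtain ⟨a, ha⟩ := exists_out (s := ({y, d, c} : Finset ι))
    (lt_of_le_of_lt Finset.card_le_three (by omega))
  simp only [Finset.mem_insert, Finset.mem_singleton, not_or] at ha
  obtain ⟨a1, a2, a3⟩ := ha
  obtain ⟨b, hb⟩ := exists_out (s := ({y, d, c, a} : Finset ι))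
    (lt_of_le_of_lt Finset.card_le_four (by omega))
  simp only [Finset.mem_insert, Finset.mem_singleton, not_or] at hb
  obtain ⟨b1, b2, b3, b4⟩ := hb
  obtain ⟨x, hx⟩ := exists_out (s := ({y, d, c, a, b} : Finset ι))
    (lt_of_le_of_lt Finset.card_le_five (by omega))
  simp only [Finset.mem_insert, Finset.mem_singleton, not_or] at hx
  obtain ⟨x1, x2, x3, x4, x5⟩ := hx
  have h1 := hk x a b x4 x5 (Ne.symm b4)
  have h2 := hN'.conj_mem _ h1 (rr y (of x))⁻¹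
  rw [inv_inv] at h2
  have h3 := ht a b c d x y (Ne.symm b4) a3 a2 (Ne.symm x4) a1 b3 b2 (Ne.symm x5) b1
    (Ne.symm hdc) (Ne.symm x3) (Ne.symm hyc) (Ne.symm x2) (Ne.symm hyd) x1 _ h2
  rw [trip (Ne.symm b4) a3 a2 (Ne.symm x4) a1 b2 (Ne.symm x5) b1 (Ne.symm hyc) (Ne.symm hyd)
    x1] at h3
  have h4 := hN.conj_mem _ h3 (rr y (of b * of d * of a * (of d)⁻¹))⁻¹
  have e : ∀ g h : MulAut (FreeGroup ι), g⁻¹ * (g * h * g⁻¹) * g⁻¹⁻¹ = h := by
    intro g h
    group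
  rwa [e] at h4

end Pool.Agent.U181.CF
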